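import Pool.Agent.Helper45.BSC.RigA

/-!
# ST_RIG: the rigid-element set is a valuation ring (`ℓ = 2`)
-/

set_option autoImplicit false

namespace Pool.Agent.Helper14.BSC

section

variable {N : Type} [Field N]

theorem rig_T : RigGrp (IsSquare : N → Prop) where
  zero := IsSquare.zero
  one := IsSquare.one
  mul _ _ hx hy := hx.mul hy
  inv _ hx := hx.inv

theorem rig_sq (e : N) : IsSquare (e * e) := ⟨e, rfl⟩

theorem rig_Te {e x : N} (he0 : e ≠ 0) : IsSquare (e * (e * x)) ↔ IsSquare x := by
  constructor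
  · intro h
    have h2 : IsSquare (e * e) := ⟨e, rfl⟩
    rw [← mul_assoc] at h
    exact rig_T.of_mul h2 (mul_ne_zero he0 he0) h
  · intro h
    rw [← mul_assoc]
    exact (rig_sq e).mul h

theorem rig_H {e : N} (he0 : e ≠ 0) : RigGrp (fun x : N => ¬ Od e x) where
  zero := fun h => h.1 IsSquare.zero
  one := fun h => h.1 IsSquare.one
  mul := by
    intro x y hx hy hxy
    obtain ⟨h1, h2⟩ := hxy
    by_cases tx : IsSquare x
    · by_cases ty : IsSquare y
      · exact h1 (tx.mul ty)
      · apply hy
        refine ⟨ty, fun h => h2 ?_⟩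
        have : e * (x * y) = x * (e * y) := by ring
        rw [this]
        exact tx.mul h
    · by_cases ty : IsSquare y
      · apply hx
        refine ⟨tx, fun h => h2 ?_⟩
        have : e * (x * y) = (e * x) * y := by ring
        rw [this]
        exact h.mul ty
      · by_cases ex : IsSquare (e * x)
        · by_cases ey : IsSquare (e * y)
          · apply h1
            rw [← rig_Te he0]
            have : e * (e * (x * y)) = (e * x) * (e * y) := by ring
            rw [this]
            exact ex.mul ey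
          · exact hy ⟨ty, ey⟩
        · exact hx ⟨tx, ex⟩
  inv := by
    intro x hx h
    apply hx
    refine ⟨fun hc => h.1 hc.inv, fun hc => h.2 ?_⟩
    by_cases hx0 : x = 0
    · rw [hx0, inv_zero, mul_zero]
      exact IsSquare.zero
    · have : e * x⁻¹ = (e * e) * (e * x)⁻¹ := by field_simp
      rw [this]
      exact (rig_sq e).mul hc.inv

theorem rig_D {e : N} (R : Rigid e) (a b : N) (ha : a ≠ 0) (hb : b ≠ 0) (hab : ¬ IsSquare (a / b)) :
    a + b ≠ 0 ∧ (IsSquare ((a + b) / a) ∨ IsSquare ((a + b) / b)) := by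
  have h0 : a + b ≠ 0 := by
    intro h
    apply hab
    have : a = -b := by linear_combination h
    rw [this, neg_div, div_self hb]
    exact R.neg1
  refine ⟨h0, ?_⟩
  have h1 : a / (a + b) + b / (a + b) = 1 := by
    rw [← add_div, div_self h0]
  rcases R.dep _ _ (div_ne_zero ha h0) (div_ne_zero hb h0) h1 with h | h | h
  · left
    have := h.inv
    rwa [inv_div] at this
  · right
    have := h.inv
    rwa [inv_div] at this
  · exfalso
    apply hab
    have h2 : a / b = (a / (a + b) * (b / (a + b))) * (((a + b) / b) * ((a + b) / b)) := by field_simp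
    rw [h2]
    exact h.mul ⟨_, rfl⟩

theorem rig_tr {e : N} (R : Rigid e) {a b c : N} (ha : a ≠ 0) (hb : b ≠ 0) (hc : c ≠ 0)
    (hab : ¬ IsSquare (a / b)) (hbc : ¬ IsSquare (b / c)) (hac : ¬ IsSquare (a / c))
    (h1 : IsSquare ((a + b) / a)) (h2 : IsSquare ((b + c) / b)) : IsSquare ((a + c) / a) :=
  riga_trans IsSquare IsSquare rig_T rig_T (fun _ h => h) (rig_D R) ha hb hc hab hbc hac h1 h2

/-- `IsSquare (x / y)` in terms of products -/
theorem rig_div {x y : N} (hy : y ≠ 0) : IsSquare (x / y) ↔ IsSquare (x * y) := by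
  constructor
  · intro h
    have : x * y = x / y * (y * y) := by field_simp
    rw [this]
    exact h.mul ⟨y, rfl⟩
  · intro h
    have : x / y = x * y * (y⁻¹ * y⁻¹) := by field_simp
    rw [this]
    exact h.mul ⟨y⁻¹, rfl⟩

/-- odd elements `y` with `1 + y` a square -/
def rigM (e y : N) : Prop := rM IsSquare (fun x => ¬ Od e x) y

theorem rigM_iff {e y : N} : rigM e y ↔ (Od e y ∧ IsSquare (1 + y)) := by
  unfold rigM rM
  simp only [not_not]

theorem rig_od0 {e y : N} (h : Od e y) : y ≠ 0 := by
  rintro rfl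
  exact h.1 IsSquare.zero

theorem rig_neg {e : N} (R : Rigid e) {x : N} : IsSquare (-x) ↔ IsSquare x := by
  constructor
  · intro h
    have := R.neg1.mul h
    rwa [neg_one_mul, neg_neg] at this
  · intro h
    have := R.neg1.mul h
    rwa [neg_one_mul] at this

theorem rig_od_neg {e : N} (R : Rigid e) {y : N} (h : Od e y) : Od e (-y) := by
  refine ⟨fun hc => h.1 ((rig_neg R).1 hc), fun hc => h.2 ?_⟩
  rw [mul_neg] at hc
  exact (rig_neg R).1 hc

theorem rig_od_e {e : N} (he0 : e ≠ 0) {y : N} (h : Od e y) : Od e (e * y) :=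
  ⟨h.2, fun hc => h.1 ((rig_Te he0).1 hc)⟩

theorem rig_od_div {e : N} (he0 : e ≠ 0) {y : N} (h : Od e y) : Od e (y / e) := by
  refine ⟨fun hc => h.2 ?_, fun hc => h.1 ?_⟩
  · have := (rig_div he0).1 hc
    rwa [mul_comm] at this
  · rwa [mul_div_cancel₀ _ he0] at hc

/-- `y ≪ 1` implies `y ≪ -e` -/
theorem rig_f1 {e : N} (R : Rigid e) (he0 : e ≠ 0) {y : N} (hy : Od e y) (h : IsSquare (1 + y)) :
    IsSquare ((-e + y) / (-e)) := by
  have hy0 := rig_od0 hy
  have hne : (-e) ≠ 0 := neg_ne_zero.2 he0
  have d : IsSquare ((-e + 1) / (-e)) := by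
    have h1 : ¬ IsSquare ((-e) / 1) := by
      rw [div_one, rig_neg R]
      exact R.e1
    rcases (rig_D R (-e) 1 hne one_ne_zero h1).2 with h2 | h2
    · exact h2
    · exfalso
      rw [div_one] at h2
      apply R.e3
      have : 1 - e = -e + 1 := by ring
      rwa [this]
  refine rig_tr R hne one_ne_zero hy0 ?_ ?_ ?_ d ?_
  · rw [div_one, rig_neg R]
    exact R.e1
  · rw [rig_div hy0, one_mul]
    exact hy.1
  · rw [rig_div hy0, neg_mul, rig_neg R]
    exact hy.2
  · rwa [div_one]

theorem rig_neg_M {e : N} (R : Rigid e) (he0 : e ≠ 0) {y : N} (hy : Od e y) (h : IsSquare (1 + y)) :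
    IsSquare (1 - y) := by
  have hy0 := rig_od0 hy
  have h1 := rig_f1 R he0 hy h
  have h2 : IsSquare ((e + (-y)) / e) := by
    have : (e + (-y)) / e = (-e + y) / (-e) := by field_simp; ring
    rwa [this]
  have h3 : IsSquare ((1 + e) / (1 : N)) := by
    rw [div_one]
    exact R.e2
  have h4 := rig_tr R one_ne_zero he0 (neg_ne_zero.2 hy0) ?_ ?_ ?_ h3 h2
  · rw [div_one] at h4
    rwa [sub_eq_add_neg]
  · rw [rig_div he0, one_mul]
    exact R.e1
  · rw [rig_div (neg_ne_zero.2 hy0), mul_neg, rig_neg R]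
    exact hy.2
  · rw [rig_div (neg_ne_zero.2 hy0), one_mul, rig_neg R]
    exact hy.1

theorem rig_M_div {e : N} (R : Rigid e) (he0 : e ≠ 0) {y : N} (h : rigM e y) : rigM e (y / e) := by
  rw [rigM_iff] at h ⊢
  refine ⟨rig_od_div he0 h.1, ?_⟩
  have h1 := rig_neg_M R he0 h.1 h.2
  rw [sub_eq_add_neg] at h1
  have h2 := rig_f1 R he0 (rig_od_neg R h.1) h1
  have : 1 + y / e = (-e + -y) / (-e) := by field_simp; ring
  rwa [this]

theorem rig_M_mul {e : N} (R : Rigid e) (he0 : e ≠ 0) {y : N} (h : rigM e y) : rigM e (e * y) := by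
  rw [rigM_iff] at h ⊢
  have hy0 := rig_od0 h.1
  refine ⟨rig_od_e he0 h.1, ?_⟩
  have h3 : IsSquare ((1 + e) / (1 : N)) := by
    rw [div_one]
    exact R.e2
  have h2 : IsSquare ((e + e * y) / e) := by
    have : (e + e * y) / e = 1 + y := by field_simp
    rw [this]
    exact h.2
  have h4 := rig_tr R one_ne_zero he0 (mul_ne_zero he0 hy0) ?_ ?_ ?_ h3 h2
  · rwa [div_one] at h4
  · rw [rig_div he0, one_mul]
    exact R.e1
  · rw [rig_div (mul_ne_zero he0 hy0), rig_Te he0]
    exact h.1.1
  · rw [rig_div (mul_ne_zero he0 hy0), one_mul]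
    exact h.1.2

/-- step (4) -/
theorem rig_4 {e : N} (R : Rigid e) {x y : N} (hx : rigM e x) (hy : rigM e y) (hxy : ¬ IsSquare (x * y)) :
    IsSquare (1 + x * y) := by
  rw [rigM_iff] at hx hy
  have hx0 := rig_od0 hx.1
  have hy0 := rig_od0 hy.1
  have h4 := rig_tr R one_ne_zero hx0 (mul_ne_zero hx0 hy0) ?_ ?_ ?_ ?_ ?_
  · rwa [div_one] at h4
  · rw [rig_div hx0, one_mul]
    exact hx.1.1
  · intro h
    apply hy.1.1
    have : y = (x / (x * y))⁻¹ := by field_simp
    rw [this]
    exact h.inv
  · rw [rig_div (mul_ne_zero hx0 hy0), one_mul]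
    exact hxy
  · rw [div_one]
    exact hx.2
  · have : (x + x * y) / x = 1 + y := by field_simp
    rw [this]
    exact hy.2

/-- the product of an even element of `𝔪` and an element of `O^-` -/
theorem rig_5 {e : N} (R : Rigid e) {h y : N} (h0 : h ≠ 0) (h1 : ¬ IsSquare h)
    (h2 : IsSquare (e * h)) (h3 : IsSquare (1 + h)) (hy : rigM e y) : IsSquare (1 + h * y) := by
  rw [rigM_iff] at hy
  have hy0 := rig_od0 hy.1
  have h4 := rig_tr R one_ne_zero hy0 (mul_ne_zero h0 hy0) ?_ ?_ ?_ ?_ ?_
  · rwa [div_one] at h4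
  · rw [rig_div hy0, one_mul]
    exact hy.1.1
  · intro hc
    apply h1
    have : h = (y / (h * y))⁻¹ := by field_simp
    rw [this]
    exact hc.inv
  · rw [rig_div (mul_ne_zero h0 hy0), one_mul]
    intro hc
    apply hy.1.2
    have h5 := h2.mul hc
    have h6 : e * h * (h * y) = (h * h) * (e * y) := by ring
    rw [h6] at h5
    exact rig_T.of_mul ⟨h, rfl⟩ (mul_ne_zero h0 h0) h5
  · rw [div_one]
    exact hy.2
  · have : (y + h * y) / y = 1 + h := by field_simp
    rw [this]
    exact h3

theorem rig_even {e : N} {h : N} (hh : ¬ Od e h) (h1 : ¬ IsSquare h) : IsSquare (e * h) := by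
  by_contra hc
  exact hh ⟨h1, hc⟩

theorem rig_M_e_inv {e : N} (R : Rigid e) (he0 : e ≠ 0) {z : N} (h : Od e z) (h2 : IsSquare (1 + e * z)) :
    IsSquare (1 + z) := by
  have h1 : rigM e (e * z) := rigM_iff.2 ⟨rig_od_e he0 h, h2⟩
  have h3 := rig_M_div R he0 h1
  rw [mul_div_cancel_left₀ _ he0] at h3
  exact (rigM_iff.1 h3).2

/-- step (5), distinct classes -/
theorem rig_8a {e : N} (R : Rigid e) {x y : N} (hx : rigM e x) (hy : rigM e y) (hxy : ¬ IsSquare (x * y)) :
    IsSquare (1 + (1 + y) * x) ∧ IsSquare (1 + x / (1 + y)) := by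
  have h4 := rig_4 R hx hy hxy
  rw [rigM_iff] at hx hy
  have hx0 := rig_od0 hx.1
  have hy0 := rig_od0 hy.1
  have hn : ∀ z : N, Od e z → 1 + z ≠ 0 := by
    intro z hz h
    apply hz.1
    have : z = -1 := by linear_combination h
    rw [this]
    exact R.neg1
  have nx := hn x hx.1
  have ny := hn y hy.1
  have nxy : 1 + x * y ≠ 0 := by
    intro h
    apply hxy
    have : x * y = -1 := by linear_combination h
    rw [this]
    exact R.neg1
  constructor
  · have c1 : ¬ IsSquare ((1 + x) / (x * y)) := by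
      intro hc
      apply hxy
      exact rig_T.congr_div hx.2 hc (by field_simp)
    have c2 : ¬ IsSquare ((1 + x * y) / x) := by
      intro hc
      apply hx.1.1
      exact rig_T.congr_div h4 hc (by field_simp)
    obtain ⟨s0, d1⟩ := rig_D R (1 + x) (x * y) nx (mul_ne_zero hx0 hy0) c1
    obtain ⟨-, d2⟩ := rig_D R (1 + x * y) x nxy hx0 c2
    have e1 : 1 + x + x * y = 1 + (1 + y) * x := by ring
    have e2 : 1 + x * y + x = 1 + (1 + y) * x := by ring
    rw [e1] at d1 s0
    rw [e2] at d2
    rcases d1 with d1 | d1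
    · exact rig_T.congr_mul d1 hx.2 (by field_simp)
    · rcases d2 with d2 | d2
      · exact rig_T.congr_mul d2 h4 (div_mul_cancel₀ _ nxy).symm
      · exfalso
        apply hy.1.1
        exact rig_T.congr_div d2 d1 (by field_simp)
  · have c1 : ¬ IsSquare ((1 + x) / y) := by
      intro hc
      apply hy.1.1
      exact rig_T.congr_div hx.2 hc (by field_simp)
    have c2 : ¬ IsSquare ((1 + y) / x) := by
      intro hc
      apply hx.1.1
      exact rig_T.congr_div hy.2 hc (by field_simp)
    obtain ⟨s0, d1⟩ := rig_D R (1 + x) y nx hy0 c1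
    obtain ⟨-, d2⟩ := rig_D R (1 + y) x ny hx0 c2
    have e2 : 1 + y + x = 1 + x + y := by ring
    rw [e2] at d2
    have hs : IsSquare (1 + x + y) := by
      rcases d1 with d1 | d1
      · exact rig_T.congr_mul d1 hx.2 (by field_simp)
      · rcases d2 with d2 | d2
        · exact rig_T.congr_mul d2 hy.2 (by field_simp)
        · exfalso
          apply hxy
          rw [← rig_div hy0]
          exact rig_T.congr_div d1 d2 (by field_simp)
    exact rig_T.congr_div hs hy.2 (by field_simp; ring)

theorem st_RIG : ST_RIG := by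
  intro N _ e R
  have he0 : e ≠ 0 := by
    rintro rfl
    exact R.e1 IsSquare.zero
  have hH := rig_H he0
  have key := riga_assembly (IsSquare : N → Prop) (fun x => ¬ Od e x) rig_T hH R.neg1
    (fun x hx h => h.1 hx) ?_ ?_ ?_ ?_ ?_ ?_
  · obtain ⟨O, hO⟩ := key
    refine ⟨O, fun x => (hO x).trans ?_⟩
    unfold RigO rM
    simp only [not_not]
    constructor
    · rintro (h | h)
      · exact Or.inl h
      · exact Or.inr ⟨h.1, fun y h1 h2 => h.2 y ⟨h1, h2⟩⟩
    · rintro (h | h)
      · exact Or.inl h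
      · exact Or.inr ⟨h.1, fun y hy => h.2 y hy.1 hy.2⟩
  · -- A2
    intro y hy
    rw [not_not] at hy
    have hy0 := rig_od0 hy
    have h1 : ¬ IsSquare (1 / y) := by
      rw [rig_div hy0, one_mul]
      exact hy.1
    rcases (rig_D R 1 y one_ne_zero hy0 h1).2 with h | h
    · left
      rwa [div_one] at h
    · right
      have : 1 + y⁻¹ = (1 + y) / y := by field_simp; ring
      rwa [this]
  · -- A4
    intro y hy
    have := rigM_iff.1 hy
    exact rig_neg_M R he0 this.1 this.2
  · -- A5
    intro h hh h0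
    have main : ∀ g : N, g ≠ 0 → ¬ IsSquare g → IsSquare (e * g) →
        (∀ y, rigM e y → IsSquare (1 + g * y)) ∨ (∀ y, rigM e y → IsSquare (1 + g⁻¹ * y)) := by
      intro g g0 g1 g2
      have h1 : ¬ IsSquare (1 / g) := by
        rw [rig_div g0, one_mul]
        exact g1
      rcases (rig_D R 1 g one_ne_zero g0 h1).2 with h | h
      · left
        intro y hy
        rw [div_one] at h
        exact rig_5 R g0 g1 g2 h hy
      · right
        intro y hy
        refine rig_5 R (inv_ne_zero g0) (fun hc => g1 (by simpa using hc.inv)) ?_ ?_ hy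
        · have : e * g⁻¹ = (e * e) * (e * g)⁻¹ := by field_simp
          rw [this]
          exact (rig_sq e).mul g2.inv
        · have : 1 + g⁻¹ = (1 + g) / g := by field_simp; ring
          rwa [this]
    by_cases hs : IsSquare h
    · have g1 : ¬ IsSquare (e * h) := fun hc => R.e1 (rig_T.congr_div hc hs (by field_simp))
      have g2 : IsSquare (e * (e * h)) := (rig_Te he0).2 hs
      rcases main (e * h) (mul_ne_zero he0 h0) g1 g2 with m | m
      · left
        intro y hy
        have hod : Od e (h * y) := by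
          by_contra hc
          exact hy.1 (hH.of_mul hh h0 hc)
        refine rig_M_e_inv R he0 hod ?_
        have := m y hy
        rwa [mul_assoc] at this
      · right
        intro y hy
        have hod : Od e ((e * h)⁻¹ * y) := by
          by_contra hc
          have h3 : ¬ Od e ((e * h)⁻¹) := hH.inv _ (fun hd => hd.2 g2)
          exact hy.1 (hH.of_mul h3 (inv_ne_zero (mul_ne_zero he0 h0)) hc)
        have h4 := rig_M_mul R he0 (rigM_iff.2 ⟨hod, m y hy⟩)
        have h5 := (rigM_iff.1 h4).2
        have : e * ((e * h)⁻¹ * y) = h⁻¹ * y := by field_simp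
        rwa [this] at h5
    · exact main h h0 hs (rig_even hh hs)
  · -- A7a
    intro x y hx hy hxy
    exfalso
    rw [not_not] at hxy
    rcases R.idx x y (rigM_iff.1 hx).1 (rigM_iff.1 hy).1 with h | h
    · exact hxy.1 h
    · exact hxy.2 h
  · -- A7b
    intro x y hx hy hxy z hz
    have hx0 := rig_od0 (rigM_iff.1 hx).1
    have hy0 := rig_od0 (rigM_iff.1 hy).1
    have main : ∀ y, rigM e y → ¬ IsSquare (x * y) → IsSquare (1 + x * y * z) := by
      intro y hy hs
      have hy0 := rig_od0 (rigM_iff.1 hy).1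
      refine rig_5 R (mul_ne_zero hx0 hy0) hs ?_ (rig_4 R hx hy hs) hz
      rcases R.idx x y (rigM_iff.1 hx).1 (rigM_iff.1 hy).1 with h | h
      · exact absurd h hs
      · exact h
    by_cases hs : IsSquare (x * y)
    · have h1 := rig_M_mul R he0 hy
      have h2 : ¬ IsSquare (x * (e * y)) := by
        intro hc
        exact R.e1 (rig_T.congr_div hc hs (by field_simp))
      have h3 := main (e * y) h1 h2
      have hod : Od e (x * y * z) := by
        by_contra hc
        exact hz.1 (hH.of_mul hxy (mul_ne_zero hx0 hy0) hc)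
      refine rig_M_e_inv R he0 hod ?_
      have : 1 + x * (e * y) * z = 1 + e * (x * y * z) := by ring
      rwa [this] at h3
    · exact main y hy hs
  · -- A8
    intro y hy x hx
    have hx0 := rig_od0 (rigM_iff.1 hx).1
    have hy0 := rig_od0 (rigM_iff.1 hy).1
    have ny : 1 + y ≠ 0 := by
      intro h
      apply (rigM_iff.1 hy).1.1
      have : y = -1 := by linear_combination h
      rw [this]
      exact R.neg1
    by_cases hs : IsSquare (x * y)
    · have h1 := rig_M_mul R he0 hx
      have h2 : ¬ IsSquare (e * x * y) := by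
        intro hc
        exact R.e1 (rig_T.congr_div hc hs (by field_simp))
      obtain ⟨h3, h4⟩ := rig_8a R h1 hy h2
      have hT1 : ¬ Od e (1 + y) := fun h => h.1 (rigM_iff.1 hy).2
      constructor
      · have hod : Od e ((1 + y) * x) := by
          by_contra hc
          exact hx.1 (hH.of_mul hT1 ny hc)
        refine rig_M_e_inv R he0 hod ?_
        have : 1 + (1 + y) * (e * x) = 1 + e * ((1 + y) * x) := by ring
        rwa [this] at h3
      · have hod : Od e (x / (1 + y)) := by
          by_contra hc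
          exact hx.1 (hH.congr_mul hc hT1 (by field_simp))
        refine rig_M_e_inv R he0 hod ?_
        have : 1 + e * x / (1 + y) = 1 + e * (x / (1 + y)) := by ring
        rwa [this] at h4
    · exact rig_8a R hx hy hs

end

end Pool.Agent.Helper14.BSC
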