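import Pool.Agent.Helper45.BSC.RigA

/-!
# ST_RIG3: the rigid-element set is a valuation ring (`ℓ = 3`)
-/

set_option autoImplicit false

namespace Pool.Agent.Helper14.BSC

section

variable {N : Type} [Field N]

theorem rig3_T : RigGrp (C3 : N → Prop) where
  zero := ⟨0, by norm_num⟩
  one := ⟨1, by norm_num⟩
  mul := by
    rintro x y ⟨a, ha⟩ ⟨b, hb⟩
    exact ⟨a * b, by rw [ha, hb, mul_pow]⟩
  inv := by
    rintro x ⟨a, ha⟩
    exact ⟨a⁻¹, by rw [ha, inv_pow]⟩

theorem rig3_even_iff {e : N} (he0 : e ≠ 0) (x : N) : ¬ Od3 e x ↔ ∃ i : ℕ, C3 (e ^ i * x) := by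
  unfold Od3
  constructor
  · intro h
    by_contra hc
    push Not at hc
    apply h
    refine ⟨?_, ?_, hc 2⟩
    · have := hc 0
      rwa [pow_zero, one_mul] at this
    · have := hc 1
      rwa [pow_one] at this
  · rintro ⟨i, hi⟩ ⟨h0, h1, h2⟩
    have key : C3 (e ^ (i % 3) * x) := by
      have h3 : C3 ((e ^ (i / 3)) ^ 3) := ⟨_, rfl⟩
      refine rig3_T.congr_div hi h3 ?_
      have h4 : e ^ i = e ^ (i % 3) * (e ^ (i / 3)) ^ 3 := by
        rw [← pow_mul, ← pow_add]
        congr 1
        omega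
      rw [h4]
      field_simp
    have h3 : i % 3 = 0 ∨ i % 3 = 1 ∨ i % 3 = 2 := by omega
    rcases h3 with h3 | h3 | h3
    · rw [h3, pow_zero, one_mul] at key
      exact h0 key
    · rw [h3, pow_one] at key
      exact h1 key
    · rw [h3] at key
      exact h2 key

theorem rig3_H {e : N} (he0 : e ≠ 0) : RigGrp (fun x : N => ¬ Od3 e x) where
  zero := by
    rw [rig3_even_iff he0]
    exact ⟨0, by rw [mul_zero]; exact rig3_T.zero⟩
  one := by
    rw [rig3_even_iff he0]
    exact ⟨0, by rw [pow_zero, mul_one]; exact rig3_T.one⟩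
  mul := by
    intro x y hx hy
    rw [rig3_even_iff he0] at hx hy ⊢
    obtain ⟨i, hi⟩ := hx
    obtain ⟨j, hj⟩ := hy
    exact ⟨i + j, rig3_T.congr_mul hi hj (by ring)⟩
  inv := by
    intro x hx
    rw [rig3_even_iff he0] at hx ⊢
    obtain ⟨i, hi⟩ := hx
    refine ⟨2 * i, ?_⟩
    by_cases hx0 : x = 0
    · rw [hx0, inv_zero, mul_zero]
      exact rig3_T.zero
    · have h3 : C3 ((e ^ i) ^ 3) := ⟨_, rfl⟩
      refine rig3_T.congr_div h3 hi ?_
      field_simp
      ring

theorem rig3_TH {e : N} (he0 : e ≠ 0) (x : N) (h : C3 x) : ¬ Od3 e x := by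
  rw [rig3_even_iff he0]
  exact ⟨0, by rwa [pow_zero, one_mul]⟩

theorem rig3_neg1 : C3 (-1 : N) := ⟨-1, by norm_num⟩

theorem rig3_neg {x : N} (h : C3 x) : C3 (-x) := by
  have := rig3_T.mul _ _ rig3_neg1 h
  rwa [neg_one_mul] at this

/-- the abstract setting -/
structure Rig3S (H : N → Prop) : Prop where
  hH : RigGrp H
  TH : ∀ x, C3 x → H x
  D : ∀ a b, a ≠ 0 → b ≠ 0 → ¬ H (a / b) → a + b ≠ 0 ∧ (C3 ((a + b) / a) ∨ C3 ((a + b) / b))

theorem rig3_S {e : N} (R : Rigid3 e) : Rig3S (fun x : N => ¬ Od3 e x) where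
  hH := rig3_H R.1
  TH := rig3_TH R.1
  D := by
    intro a b ha hb hab
    rw [not_not] at hab
    have h0 : a + b ≠ 0 := by
      intro h
      have : a = -b := by linear_combination h
      rw [this, neg_div, div_self hb] at hab
      exact hab.1 rig3_neg1
    refine ⟨h0, ?_⟩
    rcases R.2 _ hab with h | h
    · right
      have : (a + b) / b = 1 + a / b := by field_simp; ring
      rwa [this]
    · left
      have : (a + b) / a = 1 + (a / b)⁻¹ := by field_simp
      rwa [this]

namespace Rig3S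

variable {H : N → Prop} (S : Rig3S H)

include S

theorem ne0 {x : N} (h : ¬ H x) : x ≠ 0 := by
  rintro rfl
  exact h S.hH.zero

theorem sq {x : N} (h : ¬ H x) : ¬ H (x * x) := by
  intro hc
  apply h
  have h0 := S.ne0 h
  have h3 : C3 (x ^ 3) := ⟨x, rfl⟩
  exact S.hH.congr_div (S.hH.mul _ _ hc hc) (S.TH _ h3) (by field_simp)

theorem inv {x : N} (h : ¬ H x) : ¬ H x⁻¹ := fun hc => h (by simpa using S.hH.inv _ hc)

theorem neg {x : N} (h : ¬ H x) : ¬ H (-x) := fun hc => h (by
  have := S.hH.mul _ _ (S.TH _ rig3_neg1) hc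
  rwa [neg_one_mul, neg_neg] at this)

theorem tr {a b c : N} (ha : a ≠ 0) (hb : b ≠ 0) (hc : c ≠ 0)
    (hab : ¬ H (a / b)) (hbc : ¬ H (b / c)) (hac : ¬ H (a / c))
    (h1 : C3 ((a + b) / a)) (h2 : C3 ((b + c) / b)) : C3 ((a + c) / a) :=
  riga_trans C3 H rig3_T S.hH S.TH S.D ha hb hc hab hbc hac h1 h2

/-- (T2) -/
theorem t2 {y : N} (h : ¬ H y) : C3 (1 + y) ∨ C3 (1 + y⁻¹) := by
  have hy0 := S.ne0 h
  have h1 : ¬ H (1 / y) := by
    rw [one_div]
    exact S.inv h
  rcases (S.D 1 y one_ne_zero hy0 h1).2 with h | h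
  · left
    rwa [div_one] at h
  · right
    have : 1 + y⁻¹ = (1 + y) / y := by field_simp; ring
    rwa [this]

/-- (T3) -/
theorem t3 {x y : N} (hx : rM C3 H x) (hy : rM C3 H y) (hxy : ¬ H (x * y)) : C3 (1 + x * y) := by
  have hx0 := S.ne0 hx.1
  have hy0 := S.ne0 hy.1
  have h4 := S.tr one_ne_zero hx0 (mul_ne_zero hx0 hy0) ?_ ?_ ?_ ?_ ?_
  · rwa [div_one] at h4
  · rw [one_div]
    exact S.inv hx.1
  · have : x / (x * y) = y⁻¹ := by field_simp
    rw [this]
    exact S.inv hy.1
  · rw [one_div]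
    exact S.inv hxy
  · rw [div_one]
    exact hx.2
  · have : (x + x * y) / x = 1 + y := by field_simp
    rw [this]
    exact hy.2

/-- (T3), dual form -/
theorem t3' {x y : N} (hx : ¬ H x) (hx1 : C3 (1 + x⁻¹)) (hy : ¬ H y) (hy1 : C3 (1 + y⁻¹)) (hxy : ¬ H (x * y)) :
    C3 (1 + (x * y)⁻¹) := by
  have h := S.t3 (x := x⁻¹) (y := y⁻¹) ⟨S.inv hx, hx1⟩ ⟨S.inv hy, hy1⟩ (by
    rw [← mul_inv]
    exact S.inv hxy)
  rwa [← mul_inv] at h

/-- `1 + z` and `1 + 1/z` cannot both be cubes -/
theorem excl {z : N} (hz : ¬ H z) (h1 : C3 (1 + z)) (h2 : C3 (1 + z⁻¹)) : False := by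
  have hz0 := S.ne0 hz
  have hn : 1 + z ≠ 0 := by
    intro h
    apply hz
    have : z = -1 := by linear_combination h
    rw [this]
    exact S.TH _ rig3_neg1
  apply hz
  have h3 : 1 + z⁻¹ = (1 + z) / z := by field_simp; ring
  rw [h3] at h2
  exact S.TH _ (rig3_T.congr_div h1 h2 (by field_simp))

/-- (T4) -/
theorem t4 {y : N} (hy : rM C3 H y) : C3 (1 - y) := by
  rcases S.t2 (S.neg hy.1) with h | h
  · rwa [sub_eq_add_neg]
  · exfalso
    have h1 := S.t3 hy hy (S.sq hy.1)
    have h2 := S.t3' (S.neg hy.1) h (S.neg hy.1) h (by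
      rw [neg_mul_neg]
      exact S.sq hy.1)
    rw [neg_mul_neg] at h2
    exact S.excl (S.sq hy.1) h1 h2

/-- (T5) -/
theorem t5 {h : N} (hh : H h) (h0 : h ≠ 0) :
    (∀ y, rM C3 H y → C3 (1 + h * y)) ∨ (∀ y, rM C3 H y → C3 (1 + h⁻¹ * y)) := by
  by_contra hc
  push Not at hc
  obtain ⟨⟨x, hx, hx1⟩, ⟨y, hy, hy1⟩⟩ := hc
  have hx0 := S.ne0 hx.1
  have hy0 := S.ne0 hy.1
  have ox : ¬ H (h * x) := fun hc => hx.1 (S.hH.of_mul hh h0 hc)
  have oy : ¬ H (h⁻¹ * y) := fun hc => hy.1 (S.hH.of_mul (S.hH.inv _ hh) (inv_ne_zero h0) hc)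
  have dx : C3 (1 + (h * x)⁻¹) := (S.t2 ox).resolve_left hx1
  have dy : C3 (1 + (h⁻¹ * y)⁻¹) := (S.t2 oy).resolve_left hy1
  have e1 : h * x * (h⁻¹ * y) = x * y := by field_simp
  by_cases hxy : H (x * y)
  · have hxy' : ¬ H (x / y) := fun hc => S.sq hx.1 (S.hH.congr_mul hc hxy (by field_simp))
    have k1 : C3 ((h * x + y) / (h * x)) := by
      refine S.tr (mul_ne_zero h0 hx0) one_ne_zero hy0 ?_ ?_ ?_ ?_ ?_
      · rwa [div_one]
      · rw [one_div]
        exact S.inv hy.1
      · exact fun hc => hxy' (S.hH.congr_div hc hh (by field_simp))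
      · have : (h * x + 1) / (h * x) = 1 + (h * x)⁻¹ := by field_simp
        rwa [this]
      · rw [div_one]
        exact hy.2
    have k2 : C3 ((y + h * x) / y) := by
      refine S.tr hy0 h0 (mul_ne_zero h0 hx0) ?_ ?_ ?_ ?_ ?_
      · have : y / h = h⁻¹ * y := by field_simp
        rwa [this]
      · have : h / (h * x) = x⁻¹ := by field_simp
        rw [this]
        exact S.inv hx.1
      · exact fun hc => hxy' (S.hH.congr_div (S.hH.inv _ hc) hh (by field_simp))
      · have : (y + h) / y = 1 + (h⁻¹ * y)⁻¹ := by field_simp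
        rwa [this]
      · have : (h + h * x) / h = 1 + x := by field_simp
        rw [this]
        exact hx.2
    have hs : h * x + y ≠ 0 := by
      intro hc
      apply hxy'
      have : x = -(y / h) := by
        field_simp
        linear_combination hc
      have h2 : x / y = (-1) / h := by
        rw [this]
        field_simp
      rw [h2]
      exact S.hH.div (S.TH _ rig3_neg1) hh
    apply hxy'
    rw [add_comm y (h * x)] at k2
    have k3 : H (h * x / y) := S.TH _ (rig3_T.congr_div k2 k1 (by field_simp))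
    exact S.hH.congr_div k3 hh (by field_simp)
  · have k1 := S.t3 hx hy hxy
    have k2 := S.t3' ox dx oy dy (by rwa [e1])
    rw [e1] at k2
    exact S.excl hxy k1 k2

/-- (T7) -/
theorem t7 {x y : N} (hx : rM C3 H x) (hy : rM C3 H y) (hxy : H (x * y)) {z : N} (hz : rM C3 H z) :
    C3 (1 + x * y * z) := by
  have hx0 := S.ne0 hx.1
  have hy0 := S.ne0 hy.1
  have hz0 := S.ne0 hz.1
  have hxyz : ¬ H (x * y * z) := fun hc => hz.1 (S.hH.of_mul hxy (mul_ne_zero hx0 hy0) hc)
  by_cases hyz : H (y * z)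
  · have hxz : ¬ H (x * z) := by
      intro hc
      have h1 : H (x / y) := S.hH.congr_div hc hyz (by field_simp)
      exact S.sq hx.1 (S.hH.congr_mul h1 hxy (by field_simp))
    have e1 : x * z * y = x * y * z := by ring
    have h2 := S.t3 (x := x * z) (y := y) ⟨hxz, S.t3 hx hz hxz⟩ hy (by rwa [e1])
    rwa [e1] at h2
  · have e1 : x * (y * z) = x * y * z := by ring
    have h2 := S.t3 (x := x) (y := y * z) hx ⟨hyz, S.t3 hy hz hyz⟩ (by rwa [e1])
    rwa [e1] at h2

/-- (T8') with `a ≫ x` -/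
theorem t8a {a x y : N} (ha : rM C3 H a) (hx : rM C3 H x) (hy : rM C3 H y) (h : a * x = 1 + y)
    (dom : C3 ((a + x) / a)) : False := by
  have ha0 := S.ne0 ha.1
  have hx0 := S.ne0 hx.1
  have hy0 := S.ne0 hy.1
  have hax : H (a * x) := by
    rw [h]
    exact S.TH _ hy.2
  have oax : ¬ H (a / x) := fun hc => S.sq ha.1 (S.hH.congr_mul hc hax (by field_simp))
  have oxa : ¬ H (x / a) := fun hc => oax (by
    have := S.hH.inv _ hc
    rwa [inv_div] at this)
  have h1a := S.t4 ha
  have hs : C3 (x - a - y) := rig3_T.congr_mul hx.2 h1a (by linear_combination h)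
  have dxa : C3 ((x - a) / a) := by
    have m : rM C3 H (x / a) := ⟨oxa, by
      have : 1 + x / a = (a + x) / a := by field_simp
      rwa [this]⟩
    have m2 := rig3_neg (S.t4 m)
    have : (x - a) / a = -(1 - x / a) := by field_simp; ring
    rwa [this]
  have nxa : x - a ≠ 0 := by
    intro hc
    apply oax
    have : x = a := by linear_combination hc
    rw [this, div_self ha0]
    exact S.hH.one
  by_cases hay : H (a / y)
  · have hxy : ¬ H (x / y) := fun hc => oxa (S.hH.congr_div hc hay (by field_simp))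
    obtain ⟨nxy, dxy⟩ := S.D x y hx0 hy0 hxy
    rcases dxy with dxy | dxy
    · -- `x ≫ y`
      have oyx : ¬ H (y / x) := fun hc => hxy (by
        have := S.hH.inv _ hc
        rwa [inv_div] at this)
      have m : rM C3 H (y / x) := ⟨oyx, by
        have : 1 + y / x = (x + y) / x := by field_simp
        rwa [this]⟩
      have m2 : C3 ((x - y) / x) := by
        have := S.t4 m
        have e : (x - y) / x = 1 - y / x := by field_simp
        rwa [e]
      have nxy' : x - y ≠ 0 := by
        intro hc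
        apply hxy
        have : x = y := by linear_combination hc
        rw [this, div_self hy0]
        exact S.hH.one
      have o1 : ¬ H ((x - y) / (-a)) := by
        intro hc
        apply oxa
        have h2 := S.hH.congr_div hc (S.TH _ m2) (z := -(x / a)) (by field_simp)
        have h3 := S.hH.mul _ _ (S.TH _ rig3_neg1) h2
        rwa [neg_one_mul, neg_neg] at h3
      obtain ⟨ns, ds⟩ := S.D (x - y) (-a) nxy' (neg_ne_zero.2 ha0) o1
      have es : x - y + -a = x - a - y := by ring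
      rw [es] at ns ds
      rcases ds with ds | ds
      · -- `x - y` is a cube
        have h2 : C3 (x - y) := rig3_T.congr_div hs ds (by field_simp)
        exact hx.1 (S.TH _ (rig3_T.congr_div h2 m2 (by field_simp)))
      · have h2 : C3 (-a) := rig3_T.congr_div hs ds (by field_simp)
        have h3 := rig3_neg h2
        rw [neg_neg] at h3
        exact ha.1 (S.TH _ h3)
    · -- `y ≫ x`
      have m : rM C3 H (x / y) := ⟨hxy, by
        have : 1 + x / y = (x + y) / y := by field_simp; ring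
        rwa [this]⟩
      have m2 : C3 ((1 + y * (1 - a)) / (a * y)) := by
        have h2 := rig3_neg (S.t4 m)
        have e : (1 + y * (1 - a)) / (a * y) = -(1 - x / y) := by
          field_simp
          linear_combination (-1 : N) * h
        rwa [e]
      have n1a : 1 - a ≠ 0 := by
        intro hc
        apply ha.1
        have : a = 1 := by linear_combination -hc
        rw [this]
        exact S.hH.one
      have oz : ¬ H (y * (1 - a)) := fun hc => hy.1 (S.hH.congr_div hc (S.TH _ h1a) (by field_simp))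
      have nz : y * (1 - a) ≠ 0 := mul_ne_zero hy0 n1a
      obtain ⟨ns, ds⟩ := S.D 1 (y * (1 - a)) one_ne_zero nz (by
        rw [one_div]
        exact S.inv oz)
      rcases ds with ds | ds
      · rw [div_one] at ds
        have h2 : H (a * y) := S.TH _ (rig3_T.congr_div ds m2 (by field_simp))
        exact S.sq ha.1 (S.hH.congr_mul hay h2 (by field_simp))
      · have h2 : C3 ((1 - a) / a) := rig3_T.congr_div m2 ds (by
          generalize 1 + y * (1 - a) = t at ns
          field_simp)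
        exact ha.1 (S.TH _ (rig3_T.congr_div h1a h2 (by field_simp)))
  · have o1 : ¬ H ((x - a) / (-y)) := by
      intro hc
      apply hay
      have h2 := S.hH.congr_div hc (S.TH _ dxa) (z := -(a / y)) (by field_simp)
      have h3 := S.hH.mul _ _ (S.TH _ rig3_neg1) h2
      rwa [neg_one_mul, neg_neg] at h3
    obtain ⟨ns, ds⟩ := S.D (x - a) (-y) nxa (neg_ne_zero.2 hy0) o1
    have es : x - a + -y = x - a - y := by ring
    rw [es] at ns ds
    rcases ds with ds | ds
    · have h2 : C3 (x - a) := rig3_T.congr_div hs ds (by field_simp)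
      exact ha.1 (S.TH _ (rig3_T.congr_div h2 dxa (by field_simp)))
    · have h2 : C3 (-y) := rig3_T.congr_div hs ds (by field_simp)
      have h3 := rig3_neg h2
      rw [neg_neg] at h3
      exact hy.1 (S.TH _ h3)

/-- (T8') -/
theorem t8' {a x y : N} (ha : rM C3 H a) (hx : rM C3 H x) (hy : rM C3 H y) (h : a * x = 1 + y) : False := by
  have ha0 := S.ne0 ha.1
  have hx0 := S.ne0 hx.1
  have hax : H (a * x) := by
    rw [h]
    exact S.TH _ hy.2
  have oax : ¬ H (a / x) := fun hc => S.sq ha.1 (S.hH.congr_mul hc hax (by field_simp))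
  rcases (S.D a x ha0 hx0 oax).2 with d | d
  · exact S.t8a ha hx hy h d
  · refine S.t8a hx ha hy (by rw [mul_comm, h]) ?_
    rwa [add_comm]

/-- (T8), first half -/
theorem t8 {x y : N} (hy : rM C3 H y) (hx : rM C3 H x) : C3 (1 + x / (1 + y)) := by
  have hx0 := S.ne0 hx.1
  have ny : 1 + y ≠ 0 := by
    intro h
    apply hy.1
    have : y = -1 := by linear_combination h
    rw [this]
    exact S.TH _ rig3_neg1
  have o : ¬ H (x / (1 + y)) := fun hc => hx.1 (S.hH.congr_mul hc (S.TH _ hy.2) (by field_simp))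
  rcases S.t2 o with h | h
  · exact h
  · exfalso
    exact S.t8' (a := (x / (1 + y))⁻¹) (x := x) (y := y) ⟨S.inv o, h⟩ hx hy (by field_simp)

end Rig3S

theorem st_RIG3 : ST_RIG3 := by
  intro N _ e R
  have S := rig3_S R
  have key := riga_assembly (C3 : N → Prop) (fun x => ¬ Od3 e x) rig3_T S.hH rig3_neg1 S.TH
    (fun y hy => S.t2 hy) (fun y hy => S.t4 hy) (fun h hh h0 => S.t5 hh h0)
    (fun x y hx hy hxy => S.t3 hx hy hxy) (fun x y hx hy hxy z hz => S.t7 hx hy hxy hz) ?_
  · obtain ⟨O, hO⟩ := key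
    refine ⟨O, fun x => (hO x).trans ?_⟩
    unfold RigO3 rM
    simp only [not_not]
    constructor
    · rintro (h | h)
      · exact Or.inl h
      · exact Or.inr ⟨h.1, fun y h1 h2 => h.2 y ⟨h1, h2⟩⟩
    · rintro (h | h)
      · exact Or.inl h
      · exact Or.inr ⟨h.1, fun y hy => h.2 y hy.1 hy.2⟩
  · intro y hy x hx
    refine ⟨?_, S.t8 hy hx⟩
    have ny : 1 + y ≠ 0 := by
      intro h
      apply hy.1
      have : y = -1 := by linear_combination h
      rw [this]
      exact S.TH _ rig3_neg1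
    have o : ¬ (fun x => ¬ Od3 e x) (y / (1 + y)) :=
      fun hc => hy.1 (S.hH.congr_mul hc (S.TH _ hy.2) (by field_simp))
    have m : rM C3 (fun x => ¬ Od3 e x) (y / (1 + y)) := ⟨o, S.t8 hy hy⟩
    have m2 : rM C3 (fun x => ¬ Od3 e x) (-(y / (1 + y))) := ⟨S.neg o, by
      have := S.t4 m
      rwa [sub_eq_add_neg] at this⟩
    have h3 := S.t8 m2 hx
    have e1 : 1 + -(y / (1 + y)) = (1 + y)⁻¹ := by field_simp; ring
    rw [e1, div_inv_eq_mul, mul_comm] at h3
    exact h3

end

end Pool.Agent.Helper14.BSC
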