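import Pool.Agent.Helper14.BSC.Stmts

/-!
# Rigid elements: common part of RIG and RIG3

`T` = powers, `H` = even elements, `rM` = odd elements `y` with `1 + y` a power.
-/

set_option autoImplicit false

namespace Pool.Agent.Helper14.BSC

/-- a group-like predicate -/
structure RigGrp {N : Type} [Field N] (T : N → Prop) : Prop where
  zero : T 0
  one : T 1
  mul : ∀ x y, T x → T y → T (x * y)
  inv : ∀ x, T x → T x⁻¹

theorem RigGrp.of_mul {N : Type} [Field N] {T : N → Prop} (h : RigGrp T) {x y : N} (hx : T x) (hx0 : x ≠ 0)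
    (hxy : T (x * y)) : T y := by
  have := h.mul _ _ (h.inv x hx) hxy
  rwa [← mul_assoc, inv_mul_cancel₀ hx0, one_mul] at this

theorem RigGrp.div {N : Type} [Field N] {T : N → Prop} (h : RigGrp T) {x y : N} (hx : T x) (hy : T y) :
    T (x / y) := by
  rw [div_eq_mul_inv]
  exact h.mul _ _ hx (h.inv y hy)

theorem RigGrp.congr_mul {N : Type} [Field N] {T : N → Prop} (h : RigGrp T) {x y z : N} (hx : T x) (hy : T y)
    (e : z = x * y) : T z := e ▸ h.mul _ _ hx hy

theorem RigGrp.congr_div {N : Type} [Field N] {T : N → Prop} (h : RigGrp T) {x y z : N} (hx : T x) (hy : T y)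
    (e : z = x / y) : T z := e ▸ h.div hx hy

/-- odd elements `y` with `1 + y` a power -/
def rM {N : Type} [Field N] (T H : N → Prop) (x : N) : Prop := ¬ H x ∧ T (1 + x)

theorem riga_assembly {N : Type} [Field N] (T H : N → Prop) (hT : RigGrp T) (hH : RigGrp H)
    (Tn : T (-1)) (TH : ∀ x, T x → H x)
    (A2 : ∀ y, ¬ H y → T (1 + y) ∨ T (1 + y⁻¹))
    (A4 : ∀ y, rM T H y → T (1 - y))
    (A5 : ∀ h, H h → h ≠ 0 → (∀ y, rM T H y → T (1 + h * y)) ∨ (∀ y, rM T H y → T (1 + h⁻¹ * y)))
    (A7a : ∀ x y, rM T H x → rM T H y → ¬ H (x * y) → T (1 + x * y))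
    (A7b : ∀ x y, rM T H x → rM T H y → H (x * y) → ∀ z, rM T H z → T (1 + x * y * z))
    (A8 : ∀ y, rM T H y → ∀ x, rM T H x → T (1 + (1 + y) * x) ∧ T (1 + x / (1 + y))) :
    ∃ O : ValuationSubring N, ∀ x, x ∈ O ↔ (rM T H x ∨ (H x ∧ ∀ y, rM T H y → T (1 + x * y))) := by
  have M0 : ∀ x, rM T H x → x ≠ 0 := by
    rintro x hx rfl
    exact hx.1 hH.zero
  have M1 : ∀ y, rM T H y → 1 + y ≠ 0 := by
    intro y hy h
    apply hy.1
    have : y = -1 := by linear_combination h
    rw [this]
    exact TH _ Tn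
  set P : N → Prop := fun x => H x ∧ ∀ y, rM T H y → T (1 + x * y) with hP
  have P0 : P 0 := ⟨hH.zero, fun y _ => by rw [zero_mul, add_zero]; exact hT.one⟩
  have P1 : P 1 := ⟨hH.one, fun y hy => by rw [one_mul]; exact hy.2⟩
  have Pn : P (-1) := ⟨TH _ Tn, fun y hy => by
    have := A4 y hy
    rwa [sub_eq_add_neg, ← neg_one_mul] at this⟩
  have PM : ∀ h y, P h → h ≠ 0 → rM T H y → rM T H (h * y) := by
    intro h y hh h0 hy
    exact ⟨fun hc => hy.1 (hH.of_mul hh.1 h0 hc), hh.2 y hy⟩
  have hmul : ∀ x y, (rM T H x ∨ P x) → (rM T H y ∨ P y) → (rM T H (x * y) ∨ P (x * y)) := by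
    intro x y hx hy
    rcases hx with hx | hx
    · rcases hy with hy | hy
      · by_cases h : H (x * y)
        · exact Or.inr ⟨h, A7b x y hx hy h⟩
        · exact Or.inl ⟨h, A7a x y hx hy h⟩
      · by_cases h : y = 0
        · rw [h, mul_zero]
          exact Or.inr P0
        · rw [mul_comm]
          exact Or.inl (PM y x hy h hx)
    · rcases hy with hy | hy
      · by_cases h : x = 0
        · rw [h, zero_mul]
          exact Or.inr P0
        · exact Or.inl (PM x y hx h hy)
      · refine Or.inr ⟨hH.mul _ _ hx.1 hy.1, fun z hz => ?_⟩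
        by_cases h : y = 0
        · rw [h, mul_zero, zero_mul, add_zero]
          exact hT.one
        · rw [mul_assoc]
          exact hx.2 _ (PM y z hy h hz)
  have hone : ∀ x, (rM T H x ∨ P x) → (rM T H (1 + x) ∨ P (1 + x)) := by
    intro x hx
    rcases hx with hx | hx
    · exact Or.inr ⟨TH _ hx.2, fun y hy => (A8 x hx y hy).1⟩
    · by_cases h : H (1 + x)
      · refine Or.inr ⟨h, fun y hy => ?_⟩
        have h1 := M1 y hy
        have h2 : rM T H (y / (1 + y)) := by
          refine ⟨fun hc => hy.1 ?_, (A8 y hy y hy).2⟩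
          exact hH.congr_mul hc (TH _ hy.2) (by field_simp)
        exact hT.congr_mul hy.2 (hx.2 _ h2) (by field_simp; ring)
      · have hx0 : x ≠ 0 := by
          rintro rfl
          rw [add_zero] at h
          exact h hH.one
        have h1x : 1 + x ≠ 0 := by
          intro h0
          rw [h0] at h
          exact h hH.zero
        rcases A2 _ h with h1 | h1
        · exact Or.inl ⟨h, h1⟩
        · exfalso
          have hz : rM T H (1 + x)⁻¹ := ⟨fun hc => h (by simpa using hH.inv _ hc), h1⟩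
          have h2 := A4 _ hz
          have h3 : 1 - (1 + x)⁻¹ = x * (1 + x)⁻¹ := by field_simp; ring
          rw [h3] at h2
          exact hz.1 (hH.of_mul hx.1 hx0 (TH _ h2))
  have hinv : ∀ x, (rM T H x ∨ P x) ∨ (rM T H x⁻¹ ∨ P x⁻¹) := by
    intro x
    by_cases h : H x
    · by_cases h0 : x = 0
      · rw [h0]
        exact Or.inl (Or.inr P0)
      · rcases A5 x h h0 with h1 | h1
        · exact Or.inl (Or.inr ⟨h, h1⟩)
        · exact Or.inr (Or.inr ⟨hH.inv _ h, h1⟩)
    · rcases A2 x h with h1 | h1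
      · exact Or.inl (Or.inl ⟨h, h1⟩)
      · exact Or.inr (Or.inl ⟨fun hc => h (by simpa using hH.inv _ hc), h1⟩)
  have hadd : ∀ x y, (rM T H x ∨ P x) → (rM T H y ∨ P y) → (rM T H (x + y) ∨ P (x + y)) := by
    intro x y hx hy
    by_cases hx0 : x = 0
    · rw [hx0, zero_add]
      exact hy
    by_cases hy0 : y = 0
    · rw [hy0, add_zero]
      exact hx
    rcases hinv (x / y) with h1 | h1
    · have h2 := hmul _ _ hy (hone _ h1)
      have e : y * (1 + x / y) = x + y := by field_simp; ring
      rwa [e] at h2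
    · have h2 := hmul _ _ hx (hone _ h1)
      have e : x * (1 + (x / y)⁻¹) = x + y := by field_simp
      rwa [e] at h2
  exact ⟨{ carrier := {x | rM T H x ∨ P x}
           mul_mem' := fun {a b} ha hb => hmul a b ha hb
           one_mem' := Or.inr P1
           add_mem' := fun {a b} ha hb => hadd a b ha hb
           zero_mem' := Or.inr P0
           neg_mem' := fun {a} ha => by
             have := hmul (-1) a (Or.inr Pn) ha
             rwa [neg_one_mul] at this
           mem_or_inv_mem' := fun x => hinv x }, fun x => Iff.rfl⟩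

/-- transitivity of domination; `H` contains `T` and controls sums -/
theorem riga_trans {N : Type} [Field N] (T H : N → Prop) (hT : RigGrp T) (hH : RigGrp H)
    (TH : ∀ x, T x → H x)
    (D : ∀ a b, a ≠ 0 → b ≠ 0 → ¬ H (a / b) → a + b ≠ 0 ∧ (T ((a + b) / a) ∨ T ((a + b) / b)))
    {a b c : N} (ha : a ≠ 0) (hb : b ≠ 0) (hc : c ≠ 0) (hab : ¬ H (a / b)) (hbc : ¬ H (b / c)) (hac : ¬ H (a / c))
    (h1 : T ((a + b) / a)) (h2 : T ((b + c) / b)) : T ((a + c) / a) := by
  obtain ⟨nab, -⟩ := D a b ha hb hab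
  obtain ⟨nbc, -⟩ := D b c hb hc hbc
  obtain ⟨nac, dac⟩ := D a c ha hc hac
  rcases dac with h | h3
  · exact h
  exfalso
  -- the class of `a + b + c`
  have k1 : ¬ H ((a + b) / c) := fun h => hac (hH.congr_div h (TH _ h1) (by field_simp))
  have k2 : ¬ H (a / (b + c)) := fun h => hab (hH.congr_mul h (TH _ h2) (by field_simp))
  have k3 : ¬ H ((a + c) / b) := fun h => hbc (by
    have := hH.inv _ (hH.congr_div h (TH _ h3) (z := c / b) (by field_simp))
    rwa [inv_div] at this)
  obtain ⟨n1, d1⟩ := D (a + b) c nab hc k1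
  obtain ⟨n2, d2⟩ := D a (b + c) ha nbc k2
  obtain ⟨n3, d3⟩ := D (a + c) b nac hb k3
  have e2 : a + (b + c) = a + b + c := by ring
  have e3 : a + c + b = a + b + c := by ring
  rw [e2] at d2 n2
  rw [e3] at d3
  have ka : T ((a + b + c) / a) := by
    rcases d2 with d2 | d2
    · exact d2
    · rcases d1 with d1 | d1
      · exact hT.congr_mul d1 h1 (by field_simp)
      · exfalso
        -- class of the sum is both `b` and `c`
        have s1 : T ((a + b + c) / b) := hT.congr_mul d2 h2 (by field_simp)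
        exact hbc (TH _ (hT.congr_div d1 s1 (by field_simp)))
  rcases d3 with d3 | d3
  · have s1 : T ((a + b + c) / c) := hT.congr_mul d3 h3 (by field_simp)
    exact hac (TH _ (hT.congr_div s1 ka (by field_simp)))
  · exact hab (TH _ (hT.congr_div d3 ka (by field_simp)))

end Pool.Agent.Helper14.BSC
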